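import Pool.Agent.Helper53.PT.GoalsD
import Pool.Agent.Helper61.PT.RL
import Pool.Agent.Helper86.PT.PROD

/-!
# MP_705522_gt, packet PT-E3N: one node of the test for three coordinates
-/

namespace Pool.Agent.Helper72.PT

open Pool.Agent.Helper53.PT Set

theorem shr_eq (x n : ℕ) : Nat.shiftRight x n = x / 2 ^ n := Nat.shiftRight_eq_div_pow x n

theorem div_up (x y : ℕ) (hy : 0 < y) : (x : ℝ) / y ≤ ((x / y + 1 : ℕ) : ℝ) := by
  have hy' : (0 : ℝ) < y := by exact_mod_cast hy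
  rw [div_le_iff₀ hy']
  have h1 := Nat.div_add_mod x y
  have h2 := Nat.mod_lt x hy
  have h3 : x ≤ (x / y + 1) * y := by nlinarith
  exact_mod_cast h3

theorem div_dn (x y : ℕ) : ((x / y : ℕ) : ℝ) ≤ (x : ℝ) / y := Nat.cast_div_le

theorem vR_nn (v : ℕ) : 0 ≤ vR v := by unfold vR; positivity

theorem aR_nn (v : ℕ) : 0 ≤ aR v := by unfold aR; positivity

theorem vR_add (a b : ℕ) : vR (a + b) = vR a + vR b := by unfold vR; push_cast; ring

theorem vR_le {a b : ℕ} (h : a ≤ b) : vR a ≤ vR b := by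
  unfold vR
  have : (a : ℝ) ≤ b := by exact_mod_cast h
  exact div_le_div_of_nonneg_right this (by positivity)

theorem aR_le {a b : ℕ} (h : a ≤ b) : aR a ≤ aR b := by
  unfold aR
  have : (a : ℝ) ≤ b := by exact_mod_cast h
  exact div_le_div_of_nonneg_right this (by positivity)

theorem aR_lt {a b : ℕ} (h : aR a ≤ aR b) : a ≤ b := by
  unfold aR at h
  have h2 : (a : ℝ) ≤ b := by
    rwa [div_le_div_iff_of_pos_right (by positivity)] at h
  exact_mod_cast h2

theorem aR_lt' {a b : ℕ} (h : aR a < aR b) : a < b := by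
  unfold aR at h
  have h2 : (a : ℝ) < b := by
    rwa [div_lt_div_iff_of_pos_right (by positivity)] at h
  exact_mod_cast h2

theorem aR_mul (a X : ℕ) : aR (a * X) = aR a * X := by unfold aR; push_cast; ring

theorem vR_sub_ge (a b : ℕ) : vR a - vR b ≤ vR (a - b) := by
  unfold vR
  rw [← sub_div]
  apply div_le_div_of_nonneg_right _ (by positivity)
  have h1 : a ≤ (a - b) + b := by omega
  have h2 : (a : ℝ) ≤ ((a - b : ℕ) : ℝ) + b := by exact_mod_cast h1
  linarith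

theorem pp_ge (v : ℕ) : vR v - 1 ≤ vR (N.pp v) := by
  have h := vR_sub_ge v 1099511627776
  have h1 : vR 1099511627776 = 1 := by unfold vR; norm_num
  rw [h1] at h
  exact h

theorem np_ge (v : ℕ) : 1 - vR v ≤ vR (N.np v) := by
  have h := vR_sub_ge 1099511627776 v
  have h1 : vR 1099511627776 = 1 := by unfold vR; norm_num
  rw [h1] at h
  exact h

theorem vR_sub_le {a b : ℕ} {t : ℝ} (ht : 0 ≤ t) (h : vR a - vR b ≤ t) : vR (a - b) ≤ t := by
  rcases le_total b a with hb | hb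
  · have h1 : vR (a - b) = vR a - vR b := by
      unfold vR
      rw [Nat.cast_sub hb]
      ring
    rw [h1]; exact h
  · have h1 : a - b = 0 := by omega
    rw [h1]
    have : vR 0 = 0 := by unfold vR; simp
    rw [this]; exact ht

theorem pp_le {v : ℕ} {t : ℝ} (ht : 0 ≤ t) (h : vR v - 1 ≤ t) : vR (N.pp v) ≤ t := by
  have h1 : vR 1099511627776 = 1 := by unfold vR; norm_num
  refine vR_sub_le ht ?_
  rw [h1]; exact h

theorem np_le {v : ℕ} {t : ℝ} (ht : 0 ≤ t) (h : 1 - vR v ≤ t) : vR (N.np v) ≤ t := by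
  have h1 : vR 1099511627776 = 1 := by unfold vR; norm_num
  refine vR_sub_le ht ?_
  rw [h1]; exact h

theorem div_up2 (x n : ℕ) : (x : ℝ) / 2 ^ n ≤ ((x / 2 ^ n + 1 : ℕ) : ℝ) := by
  have h := div_up x (2 ^ n) (by positivity)
  rwa [Nat.cast_pow, Nat.cast_ofNat] at h

theorem div_dn2 (x n : ℕ) : ((x / 2 ^ n : ℕ) : ℝ) ≤ (x : ℝ) / 2 ^ n := by
  have h := div_dn x (2 ^ n)
  rwa [Nat.cast_pow, Nat.cast_ofNat] at h

theorem m3 {a b c A B C : ℝ} (ha : 0 ≤ a) (hb : 0 ≤ b) (hc : 0 ≤ c) (h1 : a ≤ A) (h2 : b ≤ B)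
    (h3 : c ≤ C) : a * b * c ≤ A * B * C :=
  mul_le_mul (mul_le_mul h1 h2 hb (ha.trans h1)) h3 hc (mul_nonneg (ha.trans h1) (hb.trans h2))

theorem ndiv (a b : ℕ) : Nat.div a b = a / b := rfl
theorem nmod (a b : ℕ) : Nat.mod a b = a % b := rfl
theorem shl_eq (x n : ℕ) : Nat.shiftLeft x n = x * 2 ^ n := Nat.shiftLeft_eq x n

/-- product rounded up -/
theorem mul_up (p q : ℕ) : vR p * vR q ≤ vR (p * q / 2 ^ 40 + 1) := by
  have h := div_up2 (p * q) 40
  rw [Nat.cast_mul] at h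
  unfold vR
  have : (p : ℝ) / 2 ^ 40 * (q / 2 ^ 40) = (p * q / 2 ^ 40) / 2 ^ 40 := by ring
  rw [this]
  exact div_le_div_of_nonneg_right h (by positivity)

theorem mul3_up (p q r : ℕ) : vR p * vR q * vR r ≤ vR (p * q * r / 2 ^ 80 + 1) := by
  have h := div_up2 (p * q * r) 80
  rw [Nat.cast_mul, Nat.cast_mul] at h
  unfold vR
  have : (p : ℝ) / 2 ^ 40 * (q / 2 ^ 40) * (r / 2 ^ 40) = (p * q * r / 2 ^ 80) / 2 ^ 40 := by ring
  rw [this]
  exact div_le_div_of_nonneg_right h (by positivity)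

theorem mul3_dn (p q r : ℕ) : vR (p * q * r / 2 ^ 80) ≤ vR p * vR q * vR r := by
  have h := div_dn2 (p * q * r) 80
  rw [Nat.cast_mul, Nat.cast_mul] at h
  unfold vR
  have : (p : ℝ) / 2 ^ 40 * (q / 2 ^ 40) * (r / 2 ^ 40) = (p * q * r / 2 ^ 80) / 2 ^ 40 := by ring
  rw [this]
  exact div_le_div_of_nonneg_right h (by positivity)

theorem divX_up (p X : ℕ) (hX : 0 < X) : vR p / X ≤ vR (p / X + 1) := by
  have h := div_up p X hX
  unfold vR
  have : (p : ℝ) / 2 ^ 40 / X = (p / X) / 2 ^ 40 := by ring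
  rw [this]
  exact div_le_div_of_nonneg_right h (by positivity)

theorem divX_dn (p X : ℕ) : vR (p / X) ≤ vR p / X := by
  have h := div_dn p X
  unfold vR
  have : (p : ℝ) / 2 ^ 40 / X = (p / X) / 2 ^ 40 := by ring
  rw [this]
  exact div_le_div_of_nonneg_right h (by positivity)

theorem ble_t {a b : ℕ} : Nat.ble a b = true ↔ a ≤ b := by
  constructor
  · exact Nat.le_of_ble_eq_true
  · exact Nat.ble_eq_true_of_le

theorem ble_f {a b : ℕ} : Nat.ble a b = false ↔ b < a := by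
  rw [← not_iff_not, Bool.not_eq_false, ble_t, not_lt]

theorem mn_eq (a b : ℕ) : N.mn a b = min a b := by
  unfold N.mn
  rcases h : Nat.ble a b with _ | _
  · rw [ble_f] at h
    simp only [cond_false]
    omega
  · rw [ble_t] at h
    simp only [cond_true]
    omega

theorem mx_eq (a b : ℕ) : N.mx a b = max a b := by
  unfold N.mx
  rcases h : Nat.ble a b with _ | _
  · rw [ble_f] at h
    simp only [cond_false]
    omega
  · rw [ble_t] at h
    simp only [cond_true]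
    omega

/-! ### the factor -/

/-- what `fac` says about the value `v` -/
def Fc (s l h : ℕ) (v : ℝ) : Prop :=
  (s = 0 ∧ vR l ≤ v ∧ |v| ≤ vR h) ∨ (s = 1 ∧ vR l ≤ -v ∧ |v| ≤ vR h) ∨ (s = 2 ∧ |v| ≤ vR h)

theorem bnd (a k c n M N : ℕ) (h : k ≤ c) (hM : a + c * 2 ^ n < N) (hN : N = M) : a + k * 2 ^ n < M := by
  subst hN
  exact lt_of_le_of_lt (Nat.add_le_add_left (Nat.mul_le_mul_right _ h) _) hM

theorem xg1 (k : ℕ) (h1 : Nat.ble k 255 = true) : N.xgN k = k * 2 ^ 17 := by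
  unfold N.xgN
  rw [h1, cond_true, shl_eq]

theorem xg2 (k : ℕ) (h1 : Nat.ble k 255 = false) (h2 : Nat.ble k 735 = true) :
    N.xgN k = Nat.add 33554432 (Nat.sub k 256 * 2 ^ 20) := by
  unfold N.xgN
  rw [h1, cond_false, h2, cond_true, shl_eq]

theorem xg3 (k : ℕ) (h1 : Nat.ble k 255 = false) (h2 : Nat.ble k 735 = false)
    (h3 : Nat.ble k 991 = true) : N.xgN k = Nat.add 536870912 (Nat.sub k 736 * 2 ^ 22) := by
  unfold N.xgN
  rw [h1, cond_false, h2, cond_false, h3, cond_true, shl_eq]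

theorem xg4 (k : ℕ) (h1 : Nat.ble k 255 = false) (h2 : Nat.ble k 735 = false)
    (h3 : Nat.ble k 991 = false) : N.xgN k = Nat.add 1610612736 (Nat.sub k 992 * 2 ^ 24) := by
  unfold N.xgN
  rw [h1, cond_false, h2, cond_false, h3, cond_false, shl_eq]

theorem nadd (a b : ℕ) : Nat.add a b = a + b := rfl
theorem nsub (a b : ℕ) : Nat.sub a b = a - b := rfl

theorem xg_lt (k : ℕ) (hk : k ≤ 1151) : N.xgN k < 2 ^ 32 := by
  rcases h1 : Nat.ble k 255 with _ | _
  · rcases h2 : Nat.ble k 735 with _ | _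
    · rcases h3 : Nat.ble k 991 with _ | _
      · rw [xg4 k h1 h2 h3, nadd, nsub]
        exact bnd _ _ 159 24 _ _ (by omega) (by norm_num) rfl
      · rw [xg3 k h1 h2 h3, nadd, nsub]
        rw [ble_t] at h3
        exact bnd _ _ 255 22 _ _ (by omega) (by norm_num) rfl
    · rw [xg2 k h1 h2, nadd, nsub]
      rw [ble_t] at h2
      exact bnd _ _ 479 20 _ _ (by omega) (by norm_num) rfl
  · rw [xg1 k h1]
    rw [ble_t] at h1
    exact lt_of_le_of_lt (Nat.mul_le_mul_right _ h1) (by norm_num)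

section
variable {D : N.Tab} {θ z : ℝ}

theorem fac1 (x0 x1 : ℕ) (c1 : Nat.ble x1 (N.zL D) = true) (α : Type) (f : ℕ → ℕ → ℕ → α) :
    N.fac D x0 x1 f = f 0 (N.pp (N.lo0 D x1)) (N.pp (N.up0 D x0)) := by
  unfold N.fac
  rw [c1, cond_true]

theorem fac2 (x0 x1 : ℕ) (c1 : Nat.ble x1 (N.zL D) = false) (c2 : Nat.ble (N.zR D) x0 = true)
    (c3 : Nat.ble x1 (N.xgN D.I.kN) = true) (c4 : Nat.ble x1 (N.xgN D.I.kW) = true) (α : Type)
    (f : ℕ → ℕ → ℕ → α) :
    N.fac D x0 x1 f = f 1 (N.mn (N.np (N.up0 D x0)) (N.np (N.up0 D x1))) (N.fst D x0 x1) := by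
  unfold N.fac
  rw [c1, cond_false, c2, cond_true, c3, cond_true, c4, cond_true]

theorem fac3 (x0 x1 : ℕ) (c1 : Nat.ble x1 (N.zL D) = false) (c2 : Nat.ble (N.zR D) x0 = true)
    (c3 : Nat.ble x1 (N.xgN D.I.kN) = true) (c4 : Nat.ble x1 (N.xgN D.I.kW) = false) (α : Type)
    (f : ℕ → ℕ → ℕ → α) : N.fac D x0 x1 f = f 1 0 (N.fst D x0 x1) := by
  unfold N.fac
  rw [c1, cond_false, c2, cond_true, c3, cond_true, c4, cond_false]

theorem fac4 (x0 x1 : ℕ) (c1 : Nat.ble x1 (N.zL D) = false) (c2 : Nat.ble (N.zR D) x0 = true)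
    (c3 : Nat.ble x1 (N.xgN D.I.kN) = false) (α : Type)
    (f : ℕ → ℕ → ℕ → α) : N.fac D x0 x1 f = f 2 0 (N.mx 0 (N.fst D x0 x1)) := by
  unfold N.fac
  rw [c1, cond_false, c2, cond_true, c3, cond_false, cond_true]

theorem fac5 (x0 x1 : ℕ) (c1 : Nat.ble x1 (N.zL D) = false) (c2 : Nat.ble (N.zR D) x0 = false)
    (α : Type) (f : ℕ → ℕ → ℕ → α) :
    N.fac D x0 x1 f = f 2 0 (N.mx (N.pp (N.up0 D x0)) (N.fst D x0 x1)) := by
  unfold N.fac
  rw [c1, cond_false, c2, cond_false, cond_false, cond_false]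

theorem fac_spec (T : TF D θ z) (x0 x1 : ℕ) (y : ℝ) (h0 : aR x0 ≤ y) (h1 : y ≤ aR x1) :
    ∃ s l h : ℕ, Fc s l h (f0 θ y) ∧
      ∀ (α : Type) (f : ℕ → ℕ → ℕ → α), N.fac D x0 x1 f = f s l h := by
  obtain ⟨anti, pos, neg, -, -, -, -, -, cnc, -⟩ := Pool.Agent.Helper61.PT.gRL θ z _ _ _ _ T.fa
  obtain ⟨i1, i2, i3, i4, i5, i6⟩ := T.i1
  obtain ⟨j1, j2, j3, j4, j5⟩ := T.i2
  have hx0 : 0 ≤ aR x0 := aR_nn x0
  have hy0 : 0 ≤ y := hx0.trans h0
  have h01 : x0 ≤ x1 := aR_lt (h0.trans h1)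
  have hm : z < xR D.I.kM := T.fa.zm
  have hzL : N.zL D < 2 ^ 32 := xg_lt _ (by omega)
  have hzR : N.zR D < 2 ^ 32 := xg_lt _ (by omega)
  have zLx : aR (N.zL D) < z := T.zl
  have zRx : z < aR (N.zR D) := T.zr
  rcases c1 : Nat.ble x1 (N.zL D) with _ | _
  · rw [ble_f] at c1
    rcases c2 : Nat.ble (N.zR D) x0 with _ | _
    · -- unknown sign, `x0 < zR`
      rw [ble_f] at c2
      refine ⟨2, 0, N.mx (N.pp (N.up0 D x0)) (N.fst D x0 x1), Or.inr (Or.inr ⟨rfl, ?_⟩), ?_⟩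
      · rw [mx_eq]
        rcases lt_or_ge y z with hz | hz
        · have hp := pos y hy0 hz
          rw [abs_of_pos hp]
          have e1 : f0 θ y ≤ f0 θ (aR x0) := by
            rcases eq_or_lt_of_le h0 with he | he
            · rw [he]
            · exact (anti ⟨hx0, by linarith⟩ ⟨hy0, by linarith⟩ he).le
          have e2 := T.up0 x0 (c2.trans hzR)
          have e3 := pp_ge (N.up0 D x0)
          have e4 := vR_le (le_max_left (N.pp (N.up0 D x0)) (N.fst D x0 x1))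
          linarith
        · exact (T.fst x0 x1 y hz h0 h1).trans (vR_le (le_max_right _ _))
      · exact fac5 x0 x1 (ble_f.mpr c1) (ble_f.mpr c2)
    · rw [ble_t] at c2
      have hyz : z < y := lt_of_lt_of_le zRx ((aR_le c2).trans h0)
      rcases c3 : Nat.ble x1 (N.xgN D.I.kN) with _ | _
      · rw [ble_f] at c3
        refine ⟨2, 0, N.mx 0 (N.fst D x0 x1), Or.inr (Or.inr ⟨rfl, ?_⟩), ?_⟩
        · rw [mx_eq]
          exact (T.fst x0 x1 y hyz.le h0 h1).trans (vR_le (le_max_right _ _))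
        · exact fac4 x0 x1 (ble_f.mpr c1) (ble_t.mpr c2) (ble_f.mpr c3)
      · rw [ble_t] at c3
        have hyN : y ≤ xR D.I.kN := h1.trans (aR_le c3)
        have hn := neg y hyz hyN
        rcases c4 : Nat.ble x1 (N.xgN D.I.kW) with _ | _
        · rw [ble_f] at c4
          refine ⟨1, 0, N.fst D x0 x1, Or.inr (Or.inl ⟨rfl, ?_, T.fst x0 x1 y hyz.le h0 h1⟩), ?_⟩
          · have : vR 0 = 0 := by unfold vR; simp
            rw [this]; linarith
          · exact fac3 x0 x1 (ble_f.mpr c1) (ble_t.mpr c2) (ble_t.mpr c3) (ble_f.mpr c4)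
        · rw [ble_t] at c4
          refine ⟨1, N.mn (N.np (N.up0 D x0)) (N.np (N.up0 D x1)), N.fst D x0 x1,
            Or.inr (Or.inl ⟨rfl, ?_, T.fst x0 x1 y hyz.le h0 h1⟩), ?_⟩
          · rw [mn_eq]
            have hW : N.xgN D.I.kW < 2 ^ 32 := xg_lt _ (by omega)
            have hz0 : z < aR x0 := lt_of_lt_of_le zRx (aR_le c2)
            have hxW : aR x1 ≤ xR D.I.kW := aR_le c4
            have hWN : xR D.I.kW ≤ xR D.I.kN := T.fa.WN
            have hz1 : z < aR x1 := lt_of_lt_of_le hyz h1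
            have n0 := neg (aR x0) hz0 (by linarith)
            have n1 := neg (aR x1) hz1 (by linarith)
            have hx1W : x1 < 2 ^ 32 := lt_of_le_of_lt c4 hW
            have e0 := T.up0 x0 (lt_of_le_of_lt h01 hx1W)
            have e1 := T.up0 x1 hx1W
            have g0 : vR (N.np (N.up0 D x0)) ≤ -f0 θ (aR x0) := np_le (by linarith) (by linarith)
            have g1 : vR (N.np (N.up0 D x1)) ≤ -f0 θ (aR x1) := np_le (by linarith) (by linarith)
            have hmin : min (-f0 θ (aR x0)) (-f0 θ (aR x1)) ≤ -f0 θ y := by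
              have hs : y ∈ segment ℝ (aR x0) (aR x1) := by
                rw [segment_eq_Icc (by linarith)]
                exact ⟨h0, h1⟩
              have hc := cnc.min_le_of_mem_segment (x := aR x0) (y := aR x1) ⟨hz0, by linarith⟩ ⟨hz1, hxW⟩ hs
              rcases le_total (Real.log (-f0 θ (aR x0))) (Real.log (-f0 θ (aR x1))) with hl | hl
              · rw [min_eq_left hl] at hc
                exact (min_le_left _ _).trans
                  ((Real.log_le_log_iff (by linarith) (by linarith)).mp hc)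
              · rw [min_eq_right hl] at hc
                exact (min_le_right _ _).trans
                  ((Real.log_le_log_iff (by linarith) (by linarith)).mp hc)
            refine le_trans ?_ hmin
            refine le_min ?_ ?_
            · exact (vR_le (min_le_left _ _)).trans g0
            · exact (vR_le (min_le_right _ _)).trans g1
          · exact fac2 x0 x1 (ble_f.mpr c1) (ble_t.mpr c2) (ble_t.mpr c3) (ble_t.mpr c4)
  · rw [ble_t] at c1
    have hyz : y < z := lt_of_le_of_lt (h1.trans (aR_le c1)) zLx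
    have hp := pos y hy0 hyz
    have e1 : f0 θ y ≤ f0 θ (aR x0) := by
      rcases eq_or_lt_of_le h0 with he | he
      · rw [he]
      · exact (anti ⟨hx0, by linarith⟩ ⟨hy0, by linarith⟩ he).le
    have hx1 : aR x1 < z := lt_of_le_of_lt (aR_le c1) zLx
    have e2 : f0 θ (aR x1) ≤ f0 θ y := by
      rcases eq_or_lt_of_le h1 with he | he
      · rw [he]
      · exact (anti ⟨hy0, by linarith⟩ ⟨aR_nn x1, by linarith⟩ he).le
    have hx1L : x1 < 2 ^ 32 := lt_of_le_of_lt c1 hzL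
    have u0 := T.up0 x0 (lt_of_le_of_lt h01 hx1L)
    have u1 := T.lo0 x1 hx1L
    refine ⟨0, N.pp (N.lo0 D x1), N.pp (N.up0 D x0), Or.inl ⟨rfl, ?_, ?_⟩, ?_⟩
    · exact pp_le hp.le (by linarith)
    · rw [abs_of_pos hp]
      have := pp_ge (N.up0 D x0)
      linarith
    · exact fac1 x0 x1 (ble_t.mpr c1)

theorem tay_up (T : TF D θ z) (A : ℕ) (A' : ℝ) (h0 : aR A ≤ A') (h1 : A' < z) :
    f0 θ A' ≤ vR (N.pp (N.tayU D A)) := by
  obtain ⟨anti, pos, -⟩ := Pool.Agent.Helper61.PT.gRL θ z _ _ _ _ T.fa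
  obtain ⟨i1, i2, i3, i4, i5, i6⟩ := T.i1
  have hm : z < xR D.I.kM := T.fa.zm
  have hx0 : 0 ≤ aR A := aR_nn A
  have hzR : N.zR D < 2 ^ 32 := xg_lt _ (by omega)
  have zRx : z < aR (N.zR D) := T.zr
  have hA : A < 2 ^ 32 := (aR_lt' (show aR A < aR (N.zR D) by linarith)).trans hzR
  have e1 : f0 θ A' ≤ f0 θ (aR A) := by
    rcases eq_or_lt_of_le h0 with he | he
    · rw [he]
    · exact (anti ⟨hx0, by linarith⟩ ⟨hx0.trans h0, by linarith⟩ he).le
  obtain ⟨v, e, hv, he⟩ := T.tay 0 A (Or.inl rfl) (by simpa using hA)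
  have h2 : N.tayU D A = v + e := hv ℕ Nat.add
  rw [h2]
  have h3 := pp_ge (v + e)
  rw [vR_add] at h3
  have h4 : ((A : ℝ) / 2 ^ (26 + 0)) = aR A := by unfold aR; norm_num
  rw [h4] at he
  have h5 := (abs_le.mp he).2
  linarith

end

/-! ### the node -/

theorem nsucc (a : ℕ) : Nat.succ a = a + 1 := rfl
theorem nmul (a b : ℕ) : Nat.mul a b = a * b := rfl

theorem form1 (ih u v w X : ℕ) : Nat.add ih (Nat.succ (Nat.div (Nat.succ (Nat.shiftRight (Nat.mul
      (Nat.succ (Nat.shiftRight (Nat.mul u v) 40)) w) 40)) X)) =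
    ih + (((u * v / 2 ^ 40 + 1) * w / 2 ^ 40 + 1) / X + 1) := by
  rw [shr_eq, shr_eq, nadd, nsucc, ndiv, nsucc, nmul, nmul, nsucc]

theorem form2 (ih l m n X : ℕ) : Nat.sub ih (Nat.div (Nat.shiftRight (Nat.mul (Nat.mul l m) n) 80) X) =
    ih - l * m * n / 2 ^ 80 / X := by
  rw [shr_eq, nsub, ndiv, nmul, nmul]

theorem form3 (ih l m n X : ℕ) : Nat.add ih (Nat.succ (Nat.div (Nat.succ (Nat.shiftRight (Nat.mul
      (Nat.mul l m) n) 80)) X)) = ih + ((l * m * n / 2 ^ 80 + 1) / X + 1) := by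
  rw [shr_eq, nadd, nsucc, ndiv, nsucc, nmul, nmul]

theorem node1 (D : N.Tab) (a1 a2 b1 b2 cl ch A B C X ih : ℕ)
    (c1 : Nat.ble (Nat.mul a2 X) (N.zL D) = true) :
    N.e3Node D a1 a2 b1 b2 cl ch A B C X ih =
      ih + (((N.pp (N.tayU D (A * X)) * N.pp (N.tayU D (B * X)) / 2 ^ 40 + 1) *
        N.pp (N.tayU D (C * X)) / 2 ^ 40 + 1) / X + 1) := by
  rw [← form1]
  unfold N.e3Node
  rw [c1, cond_true]
  rfl

theorem node2 (D : N.Tab) (a1 a2 b1 b2 cl ch A B C X ih : ℕ)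
    (c1 : Nat.ble (Nat.mul a2 X) (N.zL D) = false) (s1 l1 h1 s2 l2 h2 s3 l3 h3 : ℕ)
    (e1 : ∀ (α : Type) (f : ℕ → ℕ → ℕ → α), N.fac D (Nat.mul a1 X) (Nat.mul a2 X) f = f s1 l1 h1)
    (e2 : ∀ (α : Type) (f : ℕ → ℕ → ℕ → α), N.fac D (Nat.mul b1 X) (Nat.mul b2 X) f = f s2 l2 h2)
    (e3 : ∀ (α : Type) (f : ℕ → ℕ → ℕ → α), N.fac D (Nat.mul cl X) (Nat.mul ch X) f = f s3 l3 h3) :
    (N.e3Node D a1 a2 b1 b2 cl ch A B C X ih = ih - l1 * l2 * l3 / 2 ^ 80 / X ∧
      s1 ≤ 1 ∧ s2 ≤ 1 ∧ s3 ≤ 1 ∧ (s1 + (s2 + s3)) % 2 = 1) ∨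
    N.e3Node D a1 a2 b1 b2 cl ch A B C X ih = ih + ((h1 * h2 * h3 / 2 ^ 80 + 1) / X + 1) := by
  rw [← form2, ← form3]
  unfold N.e3Node
  rw [c1, cond_false, e1, e2, e3]
  rcases d1 : Nat.ble s1 1 with _ | _
  · rw [cond_false, cond_false]
    exact Or.inr rfl
  rcases d2 : Nat.ble s2 1 with _ | _
  · rw [cond_false, cond_true, cond_false]
    exact Or.inr rfl
  rcases d3 : Nat.ble s3 1 with _ | _
  · rw [cond_false, cond_true, cond_true, cond_false]
    exact Or.inr rfl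
  rcases d4 : Nat.beq (Nat.mod (Nat.add s1 (Nat.add s2 s3)) 2) 1 with _ | _
  · rw [cond_true, cond_true, cond_true, cond_false]
    exact Or.inr rfl
  · rw [cond_true, cond_true, cond_true, cond_true]
    exact Or.inl ⟨rfl, ble_t.mp d1, ble_t.mp d2, ble_t.mp d3, Nat.eq_of_beq_eq_true d4⟩

theorem Fc_abs {s l h : ℕ} {v : ℝ} (H : Fc s l h v) : |v| ≤ vR h := by
  rcases H with ⟨-, -, h⟩ | ⟨-, -, h⟩ | ⟨-, h⟩ <;> exact h

theorem gE3N : GE3N := by
  intro D θ z T a b c a1 a2 b1 b2 cl ch A B C X ih hb hbc hca hs ha1 ha2 hb1 hb2 hc1 hc2 hch ha26 hX1 hX2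
    ⟨A', B', C', hA, hB, hC, hB0, hBC, hCA, hAa, hbB, hS⟩
  have hX0 : 0 < X := hX1
  have hXr : (0 : ℝ) < X := by exact_mod_cast hX0
  rcases c1 : Nat.ble (Nat.mul a2 X) (N.zL D) with _ | _
  · obtain ⟨s1, l1, h1, F1, e1⟩ := fac_spec T (a1 * X) (a2 * X) (a * X)
      (by rw [aR_mul]; exact mul_le_mul_of_nonneg_right ha1 hXr.le)
      (by rw [aR_mul]; exact mul_le_mul_of_nonneg_right ha2 hXr.le)
    obtain ⟨s2, l2, h2, F2, e2⟩ := fac_spec T (b1 * X) (b2 * X) (b * X)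
      (by rw [aR_mul]; exact mul_le_mul_of_nonneg_right hb1 hXr.le)
      (by rw [aR_mul]; exact mul_le_mul_of_nonneg_right hb2 hXr.le)
    obtain ⟨s3, l3, h3, F3, e3⟩ := fac_spec T (cl * X) (ch * X) (c * X)
      (by rw [aR_mul]; exact mul_le_mul_of_nonneg_right hc1 hXr.le)
      (by rw [aR_mul]; exact mul_le_mul_of_nonneg_right hc2 hXr.le)
    have A1 := Fc_abs F1
    have A2 := Fc_abs F2
    have A3 := Fc_abs F3
    have hl1 := vR_nn l1
    have hl2 := vR_nn l2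
    have hl3 := vR_nn l3
    rcases node2 D a1 a2 b1 b2 cl ch A B C X ih c1 s1 l1 h1 s2 l2 h2 s3 l3 h3 e1 e2 e3 with
      ⟨hN, d1, d2, d3, d4⟩ | hN
    · rw [hN]
      have key : f0 θ (a * X) * f0 θ (b * X) * f0 θ (c * X) ≤ -(vR l1 * vR l2 * vR l3) := by
        generalize f0 θ (a * X) = u at *
        generalize f0 θ (b * X) = v at *
        generalize f0 θ (c * X) = w at *
        rcases F1 with ⟨r1, q1, -⟩ | ⟨r1, q1, -⟩ | ⟨r1, -⟩
        · rcases F2 with ⟨r2, q2, -⟩ | ⟨r2, q2, -⟩ | ⟨r2, -⟩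
          · rcases F3 with ⟨r3, q3, -⟩ | ⟨r3, q3, -⟩ | ⟨r3, -⟩
            · omega
            · have : vR l1 * vR l2 * vR l3 ≤ u * v * (-w) := m3 hl1 hl2 hl3 q1 q2 q3
              linarith
            · omega
          · rcases F3 with ⟨r3, q3, -⟩ | ⟨r3, q3, -⟩ | ⟨r3, -⟩
            · have : vR l1 * vR l2 * vR l3 ≤ u * (-v) * w := m3 hl1 hl2 hl3 q1 q2 q3
              linarith
            · omega
            · omega
          · omega
        · rcases F2 with ⟨r2, q2, -⟩ | ⟨r2, q2, -⟩ | ⟨r2, -⟩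
          · rcases F3 with ⟨r3, q3, -⟩ | ⟨r3, q3, -⟩ | ⟨r3, -⟩
            · have : vR l1 * vR l2 * vR l3 ≤ (-u) * v * w := m3 hl1 hl2 hl3 q1 q2 q3
              linarith
            · omega
            · omega
          · rcases F3 with ⟨r3, q3, -⟩ | ⟨r3, q3, -⟩ | ⟨r3, -⟩
            · omega
            · have : vR l1 * vR l2 * vR l3 ≤ (-u) * (-v) * (-w) := m3 hl1 hl2 hl3 q1 q2 q3
              linarith
            · omega
          · omega
        · omega
      have g2 := mul3_dn l1 l2 l3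
      have g3 := divX_dn (l1 * l2 * l3 / 2 ^ 80) X
      have g4 : f0 θ (a * X) * f0 θ (b * X) * f0 θ (c * X) / X ≤ -(vR (l1 * l2 * l3 / 2 ^ 80) / X) := by
        rw [← neg_div]
        exact div_le_div_of_nonneg_right (by linarith) hXr.le
      have g5 := vR_sub_ge ih (l1 * l2 * l3 / 2 ^ 80 / X)
      linarith
    · rw [hN, vR_add]
      have hprod : |f0 θ (a * X) * f0 θ (b * X) * f0 θ (c * X)| ≤ vR h1 * vR h2 * vR h3 := by
        rw [abs_mul, abs_mul]
        exact m3 (abs_nonneg _) (abs_nonneg _) (abs_nonneg _) A1 A2 A3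
      have g1 := (le_abs_self _).trans hprod
      have g2 := mul3_up h1 h2 h3
      have g3 := divX_up (h1 * h2 * h3 / 2 ^ 80 + 1) X hX0
      have g4 : f0 θ (a * X) * f0 θ (b * X) * f0 θ (c * X) / X ≤ vR (h1 * h2 * h3 / 2 ^ 80 + 1) / X :=
        div_le_div_of_nonneg_right (g1.trans g2) hXr.le
      linarith
  · rw [node1 D a1 a2 b1 b2 cl ch A B C X ih c1, vR_add]
    rw [ble_t] at c1
    have c1' : a2 * X ≤ N.zL D := c1
    have haz : a * X < z := by
      have h1 : a * X ≤ aR (a2 * X) := by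
        rw [aR_mul]; exact mul_le_mul_of_nonneg_right ha2 hXr.le
      exact lt_of_le_of_lt (h1.trans (aR_le c1')) T.zl
    obtain ⟨anti, pos, -⟩ := Pool.Agent.Helper61.PT.gRL θ z _ _ _ _ T.fa
    have hk := (Pool.Agent.Helper86.PT.gPROD Pool.Agent.Helper61.PT.gRL θ z _ _ _ _ T.fa 0 ∅ (fun _ => 0)).2.2.2
      (a * X) (b * X) (c * X) (A' * X) (B' * X) (C' * X) (by positivity)
      (mul_le_mul_of_nonneg_right hbc hXr.le) (mul_le_mul_of_nonneg_right hca hXr.le) haz (by positivity)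
      (mul_le_mul_of_nonneg_right hBC hXr.le) (mul_le_mul_of_nonneg_right hCA hXr.le)
      (mul_le_mul_of_nonneg_right hAa hXr.le) (mul_le_mul_of_nonneg_right hbB hXr.le)
      (by rw [← add_mul, ← add_mul, ← add_mul, ← add_mul, hs, hS])
    have hAz : A' * X < z := lt_of_le_of_lt (mul_le_mul_of_nonneg_right hAa hXr.le) haz
    have hCz : C' * X < z := lt_of_le_of_lt (mul_le_mul_of_nonneg_right hCA hXr.le) hAz
    have hBz : B' * X < z := lt_of_le_of_lt (mul_le_mul_of_nonneg_right hBC hXr.le) hCz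
    have t1 := tay_up T (A * X) (A' * X) (by rw [aR_mul]; exact mul_le_mul_of_nonneg_right hA hXr.le) hAz
    have t2 := tay_up T (B * X) (B' * X) (by rw [aR_mul]; exact mul_le_mul_of_nonneg_right hB hXr.le) hBz
    have t3 := tay_up T (C * X) (C' * X) (by rw [aR_mul]; exact mul_le_mul_of_nonneg_right hC hXr.le) hCz
    have p1 := pos (A' * X) (mul_nonneg (hB0.trans (hBC.trans hCA)) hXr.le) hAz
    have p2 := pos (B' * X) (by positivity) hBz
    have p3 := pos (C' * X) (mul_nonneg (hB0.trans hBC) hXr.le) hCz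
    set u := N.pp (N.tayU D (A * X)) with hu
    set v := N.pp (N.tayU D (B * X)) with hv
    set w := N.pp (N.tayU D (C * X)) with hw
    have n1 := mul_up u v
    have n2 := mul_up (u * v / 2 ^ 40 + 1) w
    have n3 := divX_up ((u * v / 2 ^ 40 + 1) * w / 2 ^ 40 + 1) X hX0
    have q1 : f0 θ (A' * X) * f0 θ (B' * X) * f0 θ (C' * X) ≤ vR u * vR v * vR w :=
      m3 p1.le p2.le p3.le t1 t2 t3
    have q2 : vR u * vR v * vR w ≤ vR (u * v / 2 ^ 40 + 1) * vR w :=
      mul_le_mul_of_nonneg_right n1 (vR_nn w)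
    have q3 : f0 θ (a * X) * f0 θ (b * X) * f0 θ (c * X) / X ≤
        vR ((u * v / 2 ^ 40 + 1) * w / 2 ^ 40 + 1) / X :=
      div_le_div_of_nonneg_right (hk.trans (q1.trans (q2.trans n2))) hXr.le
    linarith

end Pool.Agent.Helper72.PT
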